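import Pool.Agent.K3h22.EX.Stm5

/-! EX5 brick HYP (helper69 for helper22): hyperplanes in general position. -/

set_option autoImplicit false

namespace Pool.Agent.K3h69.EX

open MvPolynomial Pool.Agent.K3h22.EX

/-- functionals separate points of a rational vector space -/
lemma sep_rat (z : ℂ) (h : ∀ g : ℂ →ₗ[ℚ] ℚ, g z = 0) : z = 0 := by
  exact (Module.forall_dual_apply_eq_zero_iff ℚ z).1 h

theorem t_HYP : S_HYP := by
  intro n L α d hL hα him
  have hne : ∀ i, α i ≠ 0 := fun i => hα.ne_zero i
  have hsum : ∃ x : Fin (n + 1) → ℂ, x ∈ L := by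
    refine ⟨Pi.single 0 (d / α 0), ?_⟩
    rw [hL, Finset.sum_eq_single 0]
    · rw [Pi.single_eq_same]
      field_simp [hne 0]
    · intro b _ hb
      rw [Pi.single_eq_of_ne hb, mul_zero]
    · intro h
      exact absurd (Finset.mem_univ _) h
  obtain ⟨p, hp⟩ := hsum
  have hdir : ∀ v, v ∈ L.direction ↔ ∑ i, α i * v i = 0 := by
    intro v
    rw [← AffineSubspace.vadd_mem_iff_mem_direction v hp, hL]
    have hp' := (hL p).1 hp
    have : ∑ i, α i * (v +ᵥ p) i = ∑ i, α i * v i + ∑ i, α i * p i := by
      rw [← Finset.sum_add_distrib]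
      refine Finset.sum_congr rfl fun i _ => ?_
      simp only [vadd_eq_add, Pi.add_apply]
      ring
    rw [this, hp']
    constructor
    · intro h
      linear_combination h
    · intro h
      rw [h, zero_add]
  refine ⟨?_, ?_, ?_⟩
  · let φ : (Fin (n + 1) → ℂ) →ₗ[ℂ] ℂ := ∑ i, α i • LinearMap.proj i
    have hφ : ∀ v, φ v = ∑ i, α i * v i := by
      intro v
      simp [φ, LinearMap.sum_apply]
    have hk : L.direction = LinearMap.ker φ := by
      ext v
      rw [hdir, LinearMap.mem_ker, hφ]
    have hsurj : LinearMap.range φ = ⊤ := by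
      rw [LinearMap.range_eq_top]
      intro z
      refine ⟨Pi.single 0 (z / α 0), ?_⟩
      rw [hφ, Finset.sum_eq_single 0]
      · rw [Pi.single_eq_same]
        field_simp [hne 0]
      · intro b _ hb
        rw [Pi.single_eq_of_ne hb, mul_zero]
      · intro h
        exact absurd (Finset.mem_univ _) h
    have h1 := LinearMap.finrank_range_add_finrank_ker φ
    rw [hsurj, finrank_top, Module.finrank_self, Module.finrank_fin_fun] at h1
    rw [hk]
    omega
  · intro c hc
    by_contra hcon
    push Not at hcon
    have key : ∀ i j, (c i : ℂ) * α j = c j * α i := by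
      intro i j
      have h1 := hcon (α j • Pi.single i 1 - α i • Pi.single j 1) (by
        rw [hdir]
        simp [mul_sub, Finset.sum_sub_distrib, Pi.single_apply]
        ring)
      simp [mul_sub, Finset.sum_sub_distrib, Pi.single_apply] at h1
      linear_combination h1
    have ht : (c 0 : ℂ) / α 0 ≠ 0 := by
      intro h0
      apply hc
      have hc0 : (c 0 : ℂ) = 0 := by
        rcases div_eq_zero_iff.1 h0 with h | h
        · exact h
        · exact absurd h (hne 0)
      funext i
      have := key i 0
      rw [hc0, zero_mul] at this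
      have h2 : (c i : ℂ) = 0 := by
        rcases mul_eq_zero.1 this with h | h
        · exact h
        · exact absurd h (hne 0)
      exact_mod_cast h2
    obtain ⟨i, hi⟩ := him _ ht
    apply hi
    have : (c 0 : ℂ) / α 0 * α i = c i := by
      have := key i 0
      field_simp [hne 0]
      linear_combination -this
    rw [this]
    exact Complex.ofReal_im _
  · intro M hM v hv hMv
    rw [hdir] at hv
    have h1 := LinearMap.finrank_range_add_finrank_ker M.mulVecLin
    have h2 : Module.finrank ℚ (LinearMap.range M.mulVecLin) = n := hM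
    rw [h2, Module.finrank_fin_fun] at h1
    have h3 : Module.finrank ℚ (LinearMap.ker M.mulVecLin) = 1 := by omega
    obtain ⟨⟨v0, hv0⟩, hv0ne, hspan⟩ := finrank_eq_one_iff'.1 h3
    have hv0ne' : v0 ≠ 0 := fun h => hv0ne (Subtype.ext h)
    obtain ⟨j, hj⟩ := Function.ne_iff.1 hv0ne'
    have hj' : (v0 j : ℚ) ≠ 0 := hj
    have hg : ∀ g : ℂ →ₗ[ℚ] ℚ, ∃ c : ℚ, ∀ i, g (v i) = c * v0 i := by
      intro g
      have hmem : (fun i => g (v i)) ∈ LinearMap.ker M.mulVecLin := by
        rw [LinearMap.mem_ker]
        funext a
        have := congrArg g (hMv a)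
        rw [map_sum, map_zero] at this
        rw [Matrix.mulVecLin_apply]
        show ∑ i, M a i * g (v i) = 0
        rw [← this]
        refine Finset.sum_congr rfl fun i _ => ?_
        rw [← smul_eq_mul, ← map_smul, Rat.smul_def]
      obtain ⟨c, hc⟩ := hspan ⟨_, hmem⟩
      refine ⟨c, fun i => ?_⟩
      have := congrFun (congrArg Subtype.val hc) i
      simpa using this.symm
    have hprop : ∀ i, v i = (v0 i : ℂ) * (v j / (v0 j : ℂ)) := by
      intro i
      have hz : (v0 j : ℂ) * v i - (v0 i : ℂ) * v j = 0 := by
        apply sep_rat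
        intro g
        obtain ⟨c, hc⟩ := hg g
        rw [map_sub, ← Rat.smul_def, ← Rat.smul_def, map_smul, map_smul, hc, hc]
        simp only [smul_eq_mul]
        ring
      have hj'' : (v0 j : ℂ) ≠ 0 := by exact_mod_cast hj'
      field_simp
      linear_combination hz
    by_cases ht : v j / (v0 j : ℂ) = 0
    · funext i
      rw [hprop i, ht, mul_zero]
      rfl
    · exfalso
      have hs : ∑ i, (v0 i : ℂ) * α i = 0 := by
        have : (v j / (v0 j : ℂ)) * ∑ i, (v0 i : ℂ) * α i = 0 := by
          rw [Finset.mul_sum, ← hv]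
          refine Finset.sum_congr rfl fun i _ => ?_
          rw [hprop i]
          ring
        rcases mul_eq_zero.1 this with h | h
        · exact absurd h ht
        · exact h
      have := Fintype.linearIndependent_iff.1 hα v0 (by
        rw [← hs]
        refine Finset.sum_congr rfl fun i _ => ?_
        rw [Rat.smul_def])
      exact hj' (this j)

end Pool.Agent.K3h69.EX
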